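import Pool.Agent.Helper39.ZS.Basic

/-!
# Packing of balls (module 9)
-/

namespace Pool.Agent.Helper39.ZS

open Finset Pool.Agent.Helper38.ZS
open scoped Classical

noncomputable section

variable {ι : Type} [Fintype ι]

/-- the defect of a ball with small error energy -/
lemma DD_le (P : ι → ι → ℝ) (hP : IsPr P) (g : ι → ℝ) {B Z : Finset ι} (h : B ⊆ Z)
    (hu : ∑ i ∈ B, (rs Z g i - ap P (rs Z g) i) ^ 2 ≤ (nu g B) ^ (6 / 5 : ℝ))
    (hN : 0 < nu g B) :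
    DD P g B ≤ II P g B (Z \ B) + (nu g B) ^ (157 / 95 : ℝ) := by
  rw [DD_eq P hP g h]
  have h1 : (∑ i ∈ B, g i * (rs Z g i - ap P (rs Z g) i)) ^ 2
      ≤ ((nu g B) ^ (157 / 95 : ℝ)) ^ 2 := by
    calc (∑ i ∈ B, g i * (rs Z g i - ap P (rs Z g) i)) ^ 2
        ≤ (∑ i ∈ B, g i ^ 2) * ∑ i ∈ B, (rs Z g i - ap P (rs Z g) i) ^ 2 :=
          Finset.sum_mul_sq_le_sq_mul_sq _ _ _
      _ ≤ (nu g B) ^ (40 / 19 : ℝ) * (nu g B) ^ (6 / 5 : ℝ) :=
          mul_le_mul (sq_le_nu g B) hu (Finset.sum_nonneg (fun i _ => sq_nonneg _))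
            (Real.rpow_nonneg hN.le _)
      _ = ((nu g B) ^ (157 / 95 : ℝ)) ^ 2 := by
          rw [← Real.rpow_add hN, ← Real.rpow_natCast, ← Real.rpow_mul hN.le]
          norm_num
  have h2 := abs_le_of_sq_le_sq' h1 (Real.rpow_nonneg hN.le _)
  linarith [h2.2]

/-- `near^2 <= |g_bd|^2 * DD` -/
lemma near_sq_le (P : ι → ι → ℝ) (K : ℝ) (g : ι → ℝ) (Z B : Finset ι) :
    near P K Z g B ^ 2 ≤ (∑ l ∈ bd P K Z B, g l ^ 2) * DD P g B := by
  unfold near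
  calc (∑ l ∈ bd P K Z B, |g l| * |ap P (rs B g) l|) ^ 2
      ≤ (∑ l ∈ bd P K Z B, |g l| ^ 2) * ∑ l ∈ bd P K Z B, |ap P (rs B g) l| ^ 2 :=
        Finset.sum_mul_sq_le_sq_mul_sq _ _ _
    _ = (∑ l ∈ bd P K Z B, g l ^ 2) * ∑ l ∈ bd P K Z B, ap P (rs B g) l ^ 2 := by
        simp only [sq_abs]
    _ ≤ (∑ l ∈ bd P K Z B, g l ^ 2) * DD P g B := by
        apply mul_le_mul_of_nonneg_left _ (Finset.sum_nonneg (fun i _ => sq_nonneg _))
        exact sum_off_le_DD P g (bd_disjoint P K Z B).symm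

/-- the boundary of a light ball has some weight -/
lemma layer (P : ι → ι → ℝ) (hP : IsPr P) (K : ℝ) (g : ι → ℝ) {B Z : Finset ι} (h : B ⊆ Z)
    (κ N0 : ℝ) (hκ : 0 < κ) (hκ1 : κ ≤ 1) (hN0 : 1 ≤ N0) (hN : N0 ≤ nu g B)
    (hu : ∑ i ∈ B, (rs Z g i - ap P (rs Z g) i) ^ 2 ≤ (nu g B) ^ (6 / 5 : ℝ))
    (hI : κ * (nu g B) ^ (19 / 20 : ℝ) ≤ II P g B (Z \ B))
    (hn : II P g B (Z \ B) / 8 < near P K Z g B) :
    κ ^ 2 / 128 * N0 ^ (19 / 200 : ℝ) ≤ nu g (bd P K Z B) := by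
  set N := nu g B with hNdef
  set I := II P g B (Z \ B) with hIdef
  set G := ∑ l ∈ bd P K Z B, g l ^ 2 with hGdef
  have hN1 : 1 ≤ N := hN0.trans hN
  have hNp : 0 < N := lt_of_lt_of_le one_pos hN1
  have hD := DD_le P hP g h hu hNp
  have hns := near_sq_le P K g Z B
  have hG0 : 0 ≤ G := Finset.sum_nonneg (fun i _ => sq_nonneg _)
  have hpN : 0 < N ^ (19 / 20 : ℝ) := Real.rpow_pos_of_pos hNp _
  have hI0 : 0 < I := lt_of_lt_of_le (mul_pos hκ hpN) hI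
  have heN : 0 < N ^ (157 / 95 : ℝ) := Real.rpow_pos_of_pos hNp _
  have h1 : I ^ 2 < 64 * (G * (I + N ^ (157 / 95 : ℝ))) := by
    have h2 : (I / 8) ^ 2 < near P K Z g B ^ 2 := by
      apply pow_lt_pow_left₀ hn (by positivity) (by norm_num)
    have h3 : G * DD P g B ≤ G * (I + N ^ (157 / 95 : ℝ)) := mul_le_mul_of_nonneg_left hD hG0
    have h4 : (I / 8) ^ 2 = I ^ 2 / 64 := by ring
    rw [h4] at h2
    linarith
  have hfr : 0 < N ^ (47 / 190 : ℝ) := Real.rpow_pos_of_pos hNp _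
  have hκ2 : κ ^ 2 ≤ 1 := pow_le_one₀ hκ.le hκ1
  have h5 : κ ^ 2 / 128 * N ^ (47 / 190 : ℝ) ≤ G := by
    rcases le_or_gt I (N ^ (157 / 95 : ℝ)) with h6 | h6
    · have h7 : (κ * N ^ (19 / 20 : ℝ)) ^ 2 ≤ I ^ 2 :=
        pow_le_pow_left₀ (mul_pos hκ hpN).le hI 2
      have h8 : (κ * N ^ (19 / 20 : ℝ)) ^ 2 = κ ^ 2 * N ^ (47 / 190 : ℝ) * N ^ (157 / 95 : ℝ) := by
        have h81 : (N ^ (19 / 20 : ℝ)) ^ 2 = N ^ (47 / 190 : ℝ) * N ^ (157 / 95 : ℝ) := by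
          rw [← Real.rpow_add hNp, ← Real.rpow_natCast, ← Real.rpow_mul hNp.le]
          norm_num
        rw [mul_pow, h81]
        ring
      have h9 : G * (I + N ^ (157 / 95 : ℝ)) ≤ G * (2 * N ^ (157 / 95 : ℝ)) :=
        mul_le_mul_of_nonneg_left (by linarith) hG0
      have h10 : κ ^ 2 * N ^ (47 / 190 : ℝ) * N ^ (157 / 95 : ℝ)
          < 128 * G * N ^ (157 / 95 : ℝ) := by
        rw [← h8]
        nlinarith
      have h11 := lt_of_mul_lt_mul_right h10 heN.le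
      linarith
    · have h9 : G * (I + N ^ (157 / 95 : ℝ)) ≤ G * (2 * I) :=
        mul_le_mul_of_nonneg_left (by linarith) hG0
      have h10 : I * I < 128 * G * I := by nlinarith
      have h11 := lt_of_mul_lt_mul_right h10 hI0.le
      have h12 : N ^ (47 / 190 : ℝ) ≤ N ^ (157 / 95 : ℝ) :=
        Real.rpow_le_rpow_of_exponent_le hN1 (by norm_num)
      have h13 : κ ^ 2 * N ^ (47 / 190 : ℝ) ≤ 1 * N ^ (47 / 190 : ℝ) :=
        mul_le_mul_of_nonneg_right hκ2 hfr.le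
      linarith
  have h14 : G ≤ (nu g (bd P K Z B)) ^ (40 / 19 : ℝ) := sq_le_nu g _
  by_contra hcon
  push Not at hcon
  have hN0p : 0 < N0 := lt_of_lt_of_le one_pos hN0
  have h15 : (nu g (bd P K Z B)) ^ (40 / 19 : ℝ)
      < (κ ^ 2 / 128 * N0 ^ (19 / 200 : ℝ)) ^ (40 / 19 : ℝ) :=
    Real.rpow_lt_rpow (nu_nonneg g _) hcon (by norm_num)
  have h16 : (κ ^ 2 / 128 * N0 ^ (19 / 200 : ℝ)) ^ (40 / 19 : ℝ)
      ≤ κ ^ 2 / 128 * N ^ (47 / 190 : ℝ) := by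
    rw [Real.mul_rpow (by positivity) (Real.rpow_nonneg hN0p.le _), ← Real.rpow_mul hN0p.le]
    apply mul_le_mul
    · calc (κ ^ 2 / 128) ^ (40 / 19 : ℝ) ≤ (κ ^ 2 / 128) ^ (1 : ℝ) :=
            Real.rpow_le_rpow_of_exponent_ge (by positivity) (by linarith) (by norm_num)
        _ = κ ^ 2 / 128 := Real.rpow_one _
    · calc N0 ^ ((19 / 200 : ℝ) * (40 / 19 : ℝ)) ≤ N ^ ((19 / 200 : ℝ) * (40 / 19 : ℝ)) :=
            Real.rpow_le_rpow hN0p.le hN (by norm_num)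
        _ ≤ N ^ (47 / 190 : ℝ) := Real.rpow_le_rpow_of_exponent_le hN1 (by norm_num)
    · exact Real.rpow_nonneg hN0p.le _
    · positivity
  linarith

omit [Fintype ι] in
/-- sum over disjoint sets -/
lemma sum_disj_le {α : Type} (A : Finset α) (F : α → Finset ι) (Z : Finset ι) (w : ι → ℝ)
    (hw : ∀ i, 0 ≤ w i) (hF : ∀ a ∈ A, F a ⊆ Z)
    (hd : ∀ a ∈ A, ∀ b ∈ A, a ≠ b → Disjoint (F a) (F b)) :
    ∑ a ∈ A, ∑ i ∈ F a, w i ≤ ∑ i ∈ Z, w i := by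
  rw [← Finset.sum_biUnion (fun a ha b hb hab => hd a ha b hb hab)]
  exact Finset.sum_le_sum_of_subset_of_nonneg (Finset.biUnion_subset.2 hF) (fun i _ _ => hw i)

theorem st_PACK : ST_PACK := by
  intro γ κ C hγ hγ1 hκ hκ1 hC
  set c : ℝ := κ ^ 2 * γ / 256 with hc
  have hc0 : 0 < c := by rw [hc]; positivity
  refine ⟨4 * C / c + 4 / γ ^ 2, ⌈2 / γ⌉₊ + 2, ?_, by omega, ?_⟩
  · have h1 : 1 ≤ 4 / γ ^ 2 := by
      rw [le_div_iff₀ (by positivity)]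
      nlinarith
    have h2 : 0 ≤ 4 * C / c := by positivity
    linarith
  intro ι _ P K Z A g m R hP hm hZ hR hA hd hb
  have hRr : (⌈2 / γ⌉₊ : ℝ) + 2 ≤ (R : ℝ) := by exact_mod_cast hR
  have hRγ : 2 / γ ≤ (R : ℝ) := by
    have := Nat.le_ceil (2 / γ)
    linarith
  have hR2 : (2 : ℝ) ≤ R := by
    have : (0 : ℝ) ≤ (⌈2 / γ⌉₊ : ℝ) := Nat.cast_nonneg _
    linarith
  have hR0 : (0 : ℝ) < R := by linarith
  set N0 : ℝ := γ * R / 2 with hN0
  have hN01 : 1 ≤ N0 := by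
    rw [hN0]
    have : 2 / γ * γ ≤ R * γ := mul_le_mul_of_nonneg_right hRγ hγ.le
    rw [div_mul_cancel₀ _ hγ.ne'] at this
    linarith
  have hN0p : 0 < N0 := by linarith
  -- all balls are large
  have hpos : ∀ a ∈ A, ∀ r < R, (bd P K Z (ball P K Z a r)).Nonempty := by
    intro a ha r hr
    rw [Finset.nonempty_iff_ne_empty]
    intro he
    have h1 := hb a ha r hr
    have h2 : near P K Z g (ball P K Z a r) = 0 := by unfold near; rw [he]; simp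
    have h3 : 0 ≤ κ * (nu g (ball P K Z a r)) ^ (19 / 20 : ℝ) :=
      mul_nonneg hκ.le (Real.rpow_nonneg (nu_nonneg g _) _)
    linarith [h1.1, h1.2]
  have hlarge : ∀ a ∈ A, ∀ r < R, (R : ℝ) ≤ 2 * r + 2 → N0 ≤ nu g (ball P K Z a r) := by
    intro a ha r hr h1
    have h2 := card_ball P K Z a R (hpos a ha) r hr.le
    have h3 : ((r : ℝ) + 1) ≤ (#(ball P K Z a r) : ℝ) := by exact_mod_cast h2
    have h4 := card_le_nu g hγ hγ1 (fun i hi => hZ.low i (ball_subset P K (hA ha) r hi))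
    have h5 : γ * (R / 2) ≤ γ * (#(ball P K Z a r) : ℝ) :=
      mul_le_mul_of_nonneg_left (by linarith) hγ.le
    rw [hN0]
    linarith
  -- heavy balls
  obtain ⟨hv, hhv⟩ : ∃ hv : ι → Prop, ∀ a, hv a ↔ ∃ r ∈ Finset.Ico (R - R / 2) R,
    (nu g (ball P K Z a r)) ^ (6 / 5 : ℝ)
      < ∑ i ∈ ball P K Z a r, (rs Z g i - ap P (rs Z g) i) ^ 2 := ⟨_, fun _ => Iff.rfl⟩
  set Hv : Finset ι := A.filter hv with hHv
  have hIco : ∀ r ∈ Finset.Ico (R - R / 2) R, r < R ∧ (R : ℝ) ≤ 2 * r + 2 := by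
    intro r hr
    rw [Finset.mem_Ico] at hr
    refine ⟨hr.2, ?_⟩
    have h1 : R ≤ 2 * r + 2 := by omega
    exact_mod_cast h1
  have hheavy : (#Hv : ℝ) * N0 ^ (6 / 5 : ℝ) ≤ m := by
    have h1 : ∀ a ∈ Hv, N0 ^ (6 / 5 : ℝ)
        ≤ ∑ i ∈ ball P K Z a R, (rs Z g i - ap P (rs Z g) i) ^ 2 := by
      intro a ha
      rw [hHv, Finset.mem_filter, hhv] at ha
      obtain ⟨haA, r, hr, h2⟩ := ha
      have h3 := hIco r hr
      calc N0 ^ (6 / 5 : ℝ) ≤ (nu g (ball P K Z a r)) ^ (6 / 5 : ℝ) :=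
            Real.rpow_le_rpow hN0p.le (hlarge a haA r h3.1 h3.2) (by norm_num)
        _ ≤ ∑ i ∈ ball P K Z a r, (rs Z g i - ap P (rs Z g) i) ^ 2 := h2.le
        _ ≤ _ := Finset.sum_le_sum_of_subset_of_nonneg (ball_mono P K Z a h3.1.le)
            (fun i _ _ => sq_nonneg _)
    calc (#Hv : ℝ) * N0 ^ (6 / 5 : ℝ) = ∑ a ∈ Hv, N0 ^ (6 / 5 : ℝ) := by
          rw [Finset.sum_const, nsmul_eq_mul]
      _ ≤ ∑ a ∈ Hv, ∑ i ∈ ball P K Z a R, (rs Z g i - ap P (rs Z g) i) ^ 2 :=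
          Finset.sum_le_sum h1
      _ ≤ ∑ i ∈ (univ : Finset ι), (rs Z g i - ap P (rs Z g) i) ^ 2 := by
          apply sum_disj_le Hv _ univ _ (fun i => sq_nonneg _) (fun a _ => Finset.subset_univ _)
          intro a ha b hb' hab
          exact hd a (Finset.mem_filter.1 ha).1 b (Finset.mem_filter.1 hb').1 hab
      _ = DD P g Z := rfl
      _ ≤ m := hZ.dfb
  -- light balls
  have hlight : (#(A \ Hv) : ℝ) * ((R : ℝ) / 4 * (c * (R : ℝ) ^ (19 / 200 : ℝ))) ≤ C * m := by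
    have h1 : ∀ a ∈ A \ Hv, (R : ℝ) / 4 * (c * (R : ℝ) ^ (19 / 200 : ℝ))
        ≤ nu g (ball P K Z a R) := by
      intro a ha
      rw [Finset.mem_sdiff] at ha
      obtain ⟨haA, hnh⟩ := ha
      have h2 : ∀ r ∈ Finset.Ico (R - R / 2) R,
          c * (R : ℝ) ^ (19 / 200 : ℝ) ≤ nu g (bd P K Z (ball P K Z a r)) := by
        intro r hr
        have h3 := hIco r hr
        have h4 : ∑ i ∈ ball P K Z a r, (rs Z g i - ap P (rs Z g) i) ^ 2
            ≤ (nu g (ball P K Z a r)) ^ (6 / 5 : ℝ) := by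
          by_contra h5
          push Not at h5
          exact hnh (Finset.mem_filter.2 ⟨haA, (hhv a).2 ⟨r, hr, h5⟩⟩)
        have h6 := layer P hP K g (ball_subset P K (hA haA) r) κ N0 hκ hκ1 hN01
          (hlarge a haA r h3.1 h3.2) h4 (hb a haA r h3.1).1 (hb a haA r h3.1).2
        refine le_trans ?_ h6
        have h7 : N0 = γ / 2 * R := by rw [hN0]; ring
        rw [h7, Real.mul_rpow (by positivity) hR0.le]
        have h8 : γ / 2 ≤ (γ / 2) ^ (19 / 200 : ℝ) := by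
          calc γ / 2 = (γ / 2) ^ (1 : ℝ) := (Real.rpow_one _).symm
            _ ≤ (γ / 2) ^ (19 / 200 : ℝ) :=
              Real.rpow_le_rpow_of_exponent_ge (by positivity) (by linarith) (by norm_num)
        have h9 : c = κ ^ 2 / 128 * (γ / 2) := by rw [hc]; ring
        rw [h9, mul_assoc]
        apply mul_le_mul_of_nonneg_left _ (by positivity)
        exact mul_le_mul_of_nonneg_right h8 (Real.rpow_nonneg hR0.le _)
      calc (R : ℝ) / 4 * (c * (R : ℝ) ^ (19 / 200 : ℝ))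
          ≤ (#(Finset.Ico (R - R / 2) R) : ℝ) * (c * (R : ℝ) ^ (19 / 200 : ℝ)) := by
            apply mul_le_mul_of_nonneg_right _ (by positivity)
            rw [Nat.card_Ico]
            have h3 : R ≤ 4 * (R - (R - R / 2)) := by
              have : 2 ≤ R := by exact_mod_cast hR2
              omega
            have h4 : (R : ℝ) ≤ 4 * ((R - (R - R / 2) : ℕ) : ℝ) := by exact_mod_cast h3
            linarith
        _ = ∑ r ∈ Finset.Ico (R - R / 2) R, c * (R : ℝ) ^ (19 / 200 : ℝ) := by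
            rw [Finset.sum_const, nsmul_eq_mul]
        _ ≤ ∑ r ∈ Finset.Ico (R - R / 2) R, nu g (bd P K Z (ball P K Z a r)) :=
            Finset.sum_le_sum h2
        _ ≤ ∑ r ∈ range R, nu g (bd P K Z (ball P K Z a r)) := by
            apply Finset.sum_le_sum_of_subset_of_nonneg
            · intro r hr
              rw [Finset.mem_Ico] at hr
              exact Finset.mem_range.2 hr.2
            · intro r _ _
              exact nu_nonneg g _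
        _ ≤ nu g (ball P K Z a R) := sum_nu_bd P K Z a g R
    calc (#(A \ Hv) : ℝ) * ((R : ℝ) / 4 * (c * (R : ℝ) ^ (19 / 200 : ℝ)))
        = ∑ a ∈ A \ Hv, (R : ℝ) / 4 * (c * (R : ℝ) ^ (19 / 200 : ℝ)) := by
          rw [Finset.sum_const, nsmul_eq_mul]
      _ ≤ ∑ a ∈ A \ Hv, nu g (ball P K Z a R) := Finset.sum_le_sum h1
      _ ≤ nu g Z := by
          apply sum_disj_le (A \ Hv) _ Z (fun i => |g i| ^ (19 / 20 : ℝ))
            (fun i => Real.rpow_nonneg (abs_nonneg _) _)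
            (fun a ha => ball_subset P K (hA (Finset.mem_sdiff.1 ha).1) R)
          intro a ha b hb' hab
          exact hd a (Finset.mem_sdiff.1 ha).1 b (Finset.mem_sdiff.1 hb').1 hab
      _ ≤ C * m := hZ.nub
  -- conclusion
  have hsplit : (#A : ℝ) = (#(A \ Hv) : ℝ) + (#Hv : ℝ) := by
    have h1 : Hv ⊆ A := Finset.filter_subset _ _
    have h2 := Finset.card_sdiff_add_card_eq_card h1
    exact_mod_cast h2.symm
  set ρ : ℝ := (R : ℝ) ^ (-(21 / 20 : ℝ)) with hρ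
  have hρ0 : 0 < ρ := Real.rpow_pos_of_pos hR0 _
  have hR1 : (1 : ℝ) ≤ R := by linarith
  have hA1 : (#Hv : ℝ) ≤ 4 / γ ^ 2 * m * ρ := by
    have h1 : γ ^ 2 / 4 * (R : ℝ) ^ (21 / 20 : ℝ) ≤ N0 ^ (6 / 5 : ℝ) := by
      have h7 : N0 = γ / 2 * R := by rw [hN0]; ring
      rw [h7, Real.mul_rpow (by positivity) hR0.le]
      apply mul_le_mul
      · calc γ ^ 2 / 4 = (γ / 2) ^ (2 : ℝ) := by
              rw [Real.rpow_two]; ring
          _ ≤ (γ / 2) ^ (6 / 5 : ℝ) :=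
              Real.rpow_le_rpow_of_exponent_ge (by positivity) (by linarith) (by norm_num)
      · exact Real.rpow_le_rpow_of_exponent_le hR1 (by norm_num)
      · exact Real.rpow_nonneg hR0.le _
      · positivity
    have h2 : (#Hv : ℝ) * (γ ^ 2 / 4 * (R : ℝ) ^ (21 / 20 : ℝ)) ≤ m :=
      (mul_le_mul_of_nonneg_left h1 (Nat.cast_nonneg _)).trans hheavy
    have h3 : (R : ℝ) ^ (21 / 20 : ℝ) * ρ = 1 := by
      rw [hρ, ← Real.rpow_add hR0]
      norm_num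
    calc (#Hv : ℝ) = (#Hv : ℝ) * (γ ^ 2 / 4 * (R : ℝ) ^ (21 / 20 : ℝ)) * (4 / γ ^ 2 * ρ) := by
          have h4 : (#Hv : ℝ) * (γ ^ 2 / 4 * (R : ℝ) ^ (21 / 20 : ℝ)) * (4 / γ ^ 2 * ρ)
              = (#Hv : ℝ) * (γ ^ 2 / γ ^ 2) * ((R : ℝ) ^ (21 / 20 : ℝ) * ρ) := by ring
          rw [h4, h3, div_self (by positivity)]
          ring
      _ ≤ m * (4 / γ ^ 2 * ρ) := mul_le_mul_of_nonneg_right h2 (by positivity)
      _ = 4 / γ ^ 2 * m * ρ := by ring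
  have hA2 : (#(A \ Hv) : ℝ) ≤ 4 * C / c * m * ρ := by
    have h1 : (R : ℝ) ^ (21 / 20 : ℝ) ≤ R * (R : ℝ) ^ (19 / 200 : ℝ) := by
      nth_rewrite 2 [← Real.rpow_one (R : ℝ)]
      rw [← Real.rpow_add hR0]
      exact Real.rpow_le_rpow_of_exponent_le hR1 (by norm_num)
    have h2 : (#(A \ Hv) : ℝ) * (c / 4 * (R : ℝ) ^ (21 / 20 : ℝ)) ≤ C * m := by
      refine le_trans ?_ hlight
      apply mul_le_mul_of_nonneg_left _ (Nat.cast_nonneg _)
      have : c / 4 * (R : ℝ) ^ (21 / 20 : ℝ) ≤ c / 4 * (R * (R : ℝ) ^ (19 / 200 : ℝ)) :=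
        mul_le_mul_of_nonneg_left h1 (by positivity)
      linarith
    have h3 : (R : ℝ) ^ (21 / 20 : ℝ) * ρ = 1 := by
      rw [hρ, ← Real.rpow_add hR0]
      norm_num
    calc (#(A \ Hv) : ℝ)
        = (#(A \ Hv) : ℝ) * (c / 4 * (R : ℝ) ^ (21 / 20 : ℝ)) * (4 / c * ρ) := by
          have h4 : (#(A \ Hv) : ℝ) * (c / 4 * (R : ℝ) ^ (21 / 20 : ℝ)) * (4 / c * ρ)
              = (#(A \ Hv) : ℝ) * (c / c) * ((R : ℝ) ^ (21 / 20 : ℝ) * ρ) := by ring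
          rw [h4, h3, div_self hc0.ne']
          ring
      _ ≤ C * m * (4 / c * ρ) := mul_le_mul_of_nonneg_right h2 (by positivity)
      _ = 4 * C / c * m * ρ := by ring
  rw [hsplit]
  have : (4 * C / c + 4 / γ ^ 2) * m * ρ = 4 * C / c * m * ρ + 4 / γ ^ 2 * m * ρ := by ring
  rw [this]
  linarith

end

end Pool.Agent.Helper39.ZS
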