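import Pool.Agent.Helper38.ZS.Stmts

/-!
# Basic facts on projections, weights and balls
-/

namespace Pool.Agent.Helper39.ZS

open Finset Pool.Agent.Helper38.ZS
open scoped Classical

noncomputable section

variable {ι : Type} [Fintype ι]

omit [Fintype ι] in
lemma nu_nonneg (g : ι → ℝ) (X : Finset ι) : 0 ≤ nu g X :=
  Finset.sum_nonneg (fun i _ => Real.rpow_nonneg (abs_nonneg _) _)

omit [Fintype ι] in
lemma nu_mono (g : ι → ℝ) {X Y : Finset ι} (h : X ⊆ Y) : nu g X ≤ nu g Y :=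
  Finset.sum_le_sum_of_subset_of_nonneg h (fun i _ _ => Real.rpow_nonneg (abs_nonneg _) _)

omit [Fintype ι] in
lemma nu_union (g : ι → ℝ) {X Y : Finset ι} (h : Disjoint X Y) : nu g (X ∪ Y) = nu g X + nu g Y :=
  Finset.sum_union h

omit [Fintype ι] in
/-- lower bound of the weight by the cardinality -/
lemma card_le_nu (g : ι → ℝ) {X : Finset ι} {γ : ℝ} (h0 : 0 < γ) (h1 : γ ≤ 1)
    (h : ∀ i ∈ X, γ ≤ |g i|) : γ * (#X : ℝ) ≤ nu g X := by
  unfold nu
  rw [mul_comm, ← nsmul_eq_mul]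
  apply Finset.card_nsmul_le_sum
  intro i hi
  calc γ = γ ^ (1 : ℝ) := (Real.rpow_one γ).symm
    _ ≤ γ ^ (19 / 20 : ℝ) := Real.rpow_le_rpow_of_exponent_ge h0 h1 (by norm_num)
    _ ≤ |g i| ^ (19 / 20 : ℝ) := Real.rpow_le_rpow h0.le (h i hi) (by norm_num)

omit [Fintype ι] in
/-- the `l2` norm is bounded by the weight -/
lemma sq_le_nu (g : ι → ℝ) (X : Finset ι) :
    ∑ i ∈ X, g i ^ 2 ≤ (nu g X) ^ (40 / 19 : ℝ) := by
  rcases (nu_nonneg g X).eq_or_lt with h0 | h0
  · have hz : ∀ i ∈ X, g i = 0 := by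
      intro i hi
      have h1 : |g i| ^ (19 / 20 : ℝ) = 0 := by
        have := (Finset.sum_eq_zero_iff_of_nonneg
          (fun i _ => Real.rpow_nonneg (abs_nonneg (g i)) (19 / 20 : ℝ))).1 h0.symm i hi
        exact this
      have h2 := (Real.rpow_eq_zero (abs_nonneg _) (by norm_num)).1 h1
      exact abs_eq_zero.1 h2
    rw [Finset.sum_eq_zero (fun i hi => by rw [hz i hi]; norm_num)]
    exact Real.rpow_nonneg (nu_nonneg g X) _
  · have h1 : ∀ i ∈ X, g i ^ 2 ≤ |g i| ^ (19 / 20 : ℝ) * (nu g X) ^ (21 / 19 : ℝ) := by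
      intro i hi
      have h2 : |g i| ^ (19 / 20 : ℝ) ≤ nu g X :=
        Finset.single_le_sum (f := fun i => |g i| ^ (19 / 20 : ℝ))
          (fun i _ => Real.rpow_nonneg (abs_nonneg _) _) hi
      have h3 : (|g i| ^ (19 / 20 : ℝ)) ^ (21 / 19 : ℝ) ≤ (nu g X) ^ (21 / 19 : ℝ) :=
        Real.rpow_le_rpow (Real.rpow_nonneg (abs_nonneg _) _) h2 (by norm_num)
      have h4 : g i ^ 2 = |g i| ^ (19 / 20 : ℝ) * (|g i| ^ (19 / 20 : ℝ)) ^ (21 / 19 : ℝ) := by
        rw [← Real.rpow_mul (abs_nonneg _), ← sq_abs]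
        rcases (abs_nonneg (g i)).eq_or_lt with h5 | h5
        · rw [← h5, Real.zero_rpow (by norm_num)]
          norm_num
        · rw [← Real.rpow_add h5, ← Real.rpow_natCast]
          norm_num
      rw [h4]
      exact mul_le_mul_of_nonneg_left h3 (Real.rpow_nonneg (abs_nonneg _) _)
    calc ∑ i ∈ X, g i ^ 2 ≤ ∑ i ∈ X, |g i| ^ (19 / 20 : ℝ) * (nu g X) ^ (21 / 19 : ℝ) :=
          Finset.sum_le_sum h1
      _ = nu g X * (nu g X) ^ (21 / 19 : ℝ) := by rw [← Finset.sum_mul]; rfl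
      _ = (nu g X) ^ (40 / 19 : ℝ) := by
          nth_rewrite 1 [← Real.rpow_one (nu g X)]
          rw [← Real.rpow_add h0]
          norm_num

/-! ## the projection -/

lemma ap_add (P : ι → ι → ℝ) (x y : ι → ℝ) (i : ι) :
    ap P (fun k => x k + y k) i = ap P x i + ap P y i := by
  unfold ap
  rw [← Finset.sum_add_distrib]
  exact Finset.sum_congr rfl (fun k _ => mul_add _ _ _)

omit [Fintype ι] in
lemma rs_add_rs (g : ι → ℝ) {B Z : Finset ι} (h : B ⊆ Z) (k : ι) :
    rs Z g k = rs B g k + rs (Z \ B) g k := by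
  unfold rs
  by_cases h1 : k ∈ B
  · have h2 : k ∈ Z := h h1
    simp [h1, h2]
  · by_cases h2 : k ∈ Z
    · simp [h1, h2]
    · simp [h1, h2]

lemma sum_rs_mul (g : ι → ℝ) (X : Finset ι) (y : ι → ℝ) :
    ∑ i, rs X g i * y i = ∑ i ∈ X, g i * y i := by
  unfold rs
  rw [← Finset.sum_filter_add_sum_filter_not univ (fun i => i ∈ X)]
  have h1 : ∑ i ∈ univ.filter (fun i => ¬ i ∈ X), (if i ∈ X then g i else 0) * y i = 0 := by
    apply Finset.sum_eq_zero
    intro i hi
    rw [if_neg (Finset.mem_filter.1 hi).2, zero_mul]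
  rw [h1, add_zero]
  have h2 : univ.filter (fun i => i ∈ X) = X := by ext i; simp
  rw [h2]
  exact Finset.sum_congr rfl (fun i hi => by rw [if_pos hi])

/-- `|P x|^2 = <x, P x>` -/
lemma ap_sq (P : ι → ι → ℝ) (hP : IsPr P) (x : ι → ℝ) :
    ∑ i, ap P x i ^ 2 = ∑ i, x i * ap P x i := by
  have h1 : ∀ i, ap P x i ^ 2 = ∑ j, ∑ k, x j * (P j i * P i k) * x k := by
    intro i
    unfold ap
    rw [sq, Finset.sum_mul_sum]
    refine Finset.sum_congr rfl (fun j _ => Finset.sum_congr rfl (fun k _ => ?_))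
    rw [hP.symm i j]
    ring
  rw [Finset.sum_congr rfl (fun i _ => h1 i), Finset.sum_comm]
  refine Finset.sum_congr rfl (fun j _ => ?_)
  rw [Finset.sum_comm]
  unfold ap
  rw [Finset.mul_sum]
  refine Finset.sum_congr rfl (fun k _ => ?_)
  rw [← hP.idem j k, Finset.sum_mul, Finset.mul_sum]
  exact Finset.sum_congr rfl (fun i _ => by ring)

/-- Pythagoras for the projection -/
lemma sum_sub_sq (P : ι → ι → ℝ) (hP : IsPr P) (x : ι → ℝ) :
    ∑ i, (x i - ap P x i) ^ 2 = ∑ i, x i * (x i - ap P x i) := by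
  have h1 : ∀ i, (x i - ap P x i) ^ 2 = x i * (x i - ap P x i) - x i * ap P x i + ap P x i ^ 2 := by
    intro i; ring
  rw [Finset.sum_congr rfl (fun i _ => h1 i), Finset.sum_add_distrib, Finset.sum_sub_distrib,
    ap_sq P hP x]
  ring

/-- the defect of a subset (F3) -/
lemma DD_eq (P : ι → ι → ℝ) (hP : IsPr P) (g : ι → ℝ) {B Z : Finset ι} (h : B ⊆ Z) :
    DD P g B = II P g B (Z \ B) + ∑ i ∈ B, g i * (rs Z g i - ap P (rs Z g) i) := by
  unfold DD
  rw [sum_sub_sq P hP, sum_rs_mul]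
  have h1 : II P g B (Z \ B) = ∑ i ∈ B, g i * ap P (rs (Z \ B) g) i := by
    unfold II
    refine Finset.sum_congr rfl (fun i _ => ?_)
    have h2 : ap P (rs (Z \ B) g) i = ∑ k ∈ Z \ B, g k * P i k := by
      rw [← sum_rs_mul g (Z \ B) (fun k => P i k)]
      unfold ap
      exact Finset.sum_congr rfl (fun k _ => mul_comm _ _)
    rw [h2, Finset.mul_sum]
    exact Finset.sum_congr rfl (fun k _ => by ring)
  rw [h1, ← Finset.sum_add_distrib]
  refine Finset.sum_congr rfl (fun i hi => ?_)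
  have h3 : ap P (rs Z g) i = ap P (rs B g) i + ap P (rs (Z \ B) g) i := by
    rw [← ap_add]
    congr 1
    funext k
    exact rs_add_rs g h k
  have h4 : rs B g i = g i := by unfold rs; rw [if_pos hi]
  have h5 : rs Z g i = g i := by unfold rs; rw [if_pos (h hi)]
  rw [h3, h4, h5]
  ring

/-- off `B` the projected restriction is part of the defect -/
lemma sum_off_le_DD (P : ι → ι → ℝ) (g : ι → ℝ) {B X : Finset ι} (h : Disjoint X B) :
    ∑ l ∈ X, ap P (rs B g) l ^ 2 ≤ DD P g B := by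
  unfold DD
  have h1 : ∑ l ∈ X, ap P (rs B g) l ^ 2 = ∑ l ∈ X, (rs B g l - ap P (rs B g) l) ^ 2 := by
    refine Finset.sum_congr rfl (fun l hl => ?_)
    have h2 : rs B g l = 0 := by
      unfold rs
      rw [if_neg]
      exact Finset.disjoint_left.1 h hl
    rw [h2]
    ring
  rw [h1]
  exact Finset.sum_le_sum_of_subset_of_nonneg (Finset.subset_univ _) (fun i _ _ => sq_nonneg _)

/-! ## balls -/

omit [Fintype ι] in
lemma bd_subset (P : ι → ι → ℝ) (K : ℝ) (Z B : Finset ι) : bd P K Z B ⊆ Z \ B :=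
  Finset.filter_subset _ _

omit [Fintype ι] in
lemma bd_disjoint (P : ι → ι → ℝ) (K : ℝ) (Z B : Finset ι) : Disjoint B (bd P K Z B) :=
  Finset.disjoint_of_subset_right (bd_subset P K Z B) Finset.disjoint_sdiff

omit [Fintype ι] in
lemma ball_zero (P : ι → ι → ℝ) (K : ℝ) (Z : Finset ι) (s : ι) : ball P K Z s 0 = {s} := rfl

omit [Fintype ι] in
lemma ball_succ (P : ι → ι → ℝ) (K : ℝ) (Z : Finset ι) (s : ι) (r : ℕ) :
    ball P K Z s (r + 1) = ball P K Z s r ∪ bd P K Z (ball P K Z s r) := by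
  unfold ball
  rw [Function.iterate_succ_apply']
  rfl

omit [Fintype ι] in
lemma ball_subset_succ (P : ι → ι → ℝ) (K : ℝ) (Z : Finset ι) (s : ι) (r : ℕ) :
    ball P K Z s r ⊆ ball P K Z s (r + 1) := by
  rw [ball_succ]
  exact Finset.subset_union_left

omit [Fintype ι] in
lemma ball_mono (P : ι → ι → ℝ) (K : ℝ) (Z : Finset ι) (s : ι) : Monotone (ball P K Z s) :=
  monotone_nat_of_le_succ (ball_subset_succ P K Z s)

omit [Fintype ι] in
lemma ball_subset (P : ι → ι → ℝ) (K : ℝ) {Z : Finset ι} {s : ι} (hs : s ∈ Z) (r : ℕ) :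
    ball P K Z s r ⊆ Z := by
  induction r with
  | zero => rw [ball_zero]; exact Finset.singleton_subset_iff.2 hs
  | succ r ih =>
    rw [ball_succ]
    exact Finset.union_subset ih ((bd_subset P K Z _).trans Finset.sdiff_subset)

omit [Fintype ι] in
lemma mem_ball_self (P : ι → ι → ℝ) (K : ℝ) (Z : Finset ι) (s : ι) (r : ℕ) :
    s ∈ ball P K Z s r :=
  ball_mono P K Z s (Nat.zero_le r) (by rw [ball_zero]; exact Finset.mem_singleton_self s)

omit [Fintype ι] in
/-- as long as the boundaries are nonempty the balls grow -/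
lemma card_ball (P : ι → ι → ℝ) (K : ℝ) (Z : Finset ι) (s : ι) (R : ℕ)
    (h : ∀ r < R, (bd P K Z (ball P K Z s r)).Nonempty) (r : ℕ) (hr : r ≤ R) :
    r + 1 ≤ #(ball P K Z s r) := by
  induction r with
  | zero => rw [ball_zero]; simp
  | succ r ih =>
    rw [ball_succ, Finset.card_union_of_disjoint (bd_disjoint P K Z _)]
    have h1 := ih (Nat.le_of_succ_le hr)
    have h2 := Finset.card_pos.2 (h r hr)
    omega

omit [Fintype ι] in
/-- the weights of the layers -/
lemma sum_nu_bd (P : ι → ι → ℝ) (K : ℝ) (Z : Finset ι) (s : ι) (g : ι → ℝ) (R : ℕ) :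
    ∑ r ∈ range R, nu g (bd P K Z (ball P K Z s r)) ≤ nu g (ball P K Z s R) := by
  induction R with
  | zero => simp [nu_nonneg]
  | succ R ih =>
    rw [Finset.sum_range_succ, ball_succ, nu_union g (bd_disjoint P K Z _)]
    linarith

end

end Pool.Agent.Helper39.ZS
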